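import Pool.Agent.Helper49.IP.Main

/-!
# Exact values of the least order realizing an independent set permutation

Let `m ≥ 2` and let `π` be a permutation of `{1, …, m}` in which `m - 1` precedes `m`. Every graph
with the independent set permutation `π` has at least `C(m, k) m ^ k` vertices, for every entry `k`
which is `1` or precedes `1`. This is sharp: if, for some `1 ≤ c ≤ m - 1`, the entries `1, …, c`
come first, in any order in which `c` is not preceded by `1` (if `c > 1`), and then the entries
`c + 1, …, m` in increasing order, then the least order is `C(m, c) m ^ c`.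
-/

set_option autoImplicit false

open Pool.Agent.Helper49.IP

namespace Pool.Agent.Helper49.Slots.ExactValues

theorem result (m : ℕ) (hm : 2 ≤ m) (π : Equiv.Perm (Fin m)) :
    (Before π (m - 1) m → ∀ k : ℕ, k = 1 ∨ Before π k 1 →
      ∀ n ∈ orders π, m.choose k * m ^ k ≤ n) ∧
    ∀ c : ℕ, 1 ≤ c → c < m → c = 1 ∨ Before π c 1 →
      (∀ k l : ℕ, 1 ≤ k → k ≤ c → c < l → l ≤ m → Before π k l) →
      (∀ k l : ℕ, c < k → k < l → l ≤ m → Before π k l) →
      IsLeast (orders π) (m.choose c * m ^ c) := by
  refine ⟨fun h k hk n hn => lower_orders hm h hn hk, fun c hc1 hc h0 h1 h2 => ?_⟩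
  obtain ⟨h3, -, -, -, -, h4⟩ := main m hm π
  rw [← h4 c hc1 hc h0 h1 h2]
  exact h3

end Pool.Agent.Helper49.Slots.ExactValues
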